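import Mathlib
import Pool.Agent.Work.MP_97f157_lc_C.Final

set_option autoImplicit false

namespace Pool.Agent.Results.MP_97f157_lc.Disproof

/-- For every exponent `C` there is a fixed number `m` of factors such that the number of distinct
real roots of nonzero sums of `k` products of `m` real `t`-sparse polynomials is not
`O((k t)^C)`. -/
theorem result :
    ∀ C : ℕ, ∃ m : ℕ, 1 ≤ m ∧ ∀ B : ℕ, ∃ (k t : ℕ) (F : Fin k → Fin m → Polynomial ℝ),
      1 ≤ k ∧ 1 ≤ t ∧ (∀ i j, (F i j).support.card ≤ t) ∧ (∑ i, ∏ j, F i j) ≠ 0 ∧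
        B * (k * t) ^ C < (∑ i, ∏ j, F i j).roots.toFinset.card := by
  intro C
  obtain ⟨a, b, T, m, K, hT, h⟩ := Pool.Agent.Work.MP_97f157_lc_C.exists_roots C
  have key : ∀ B : ℕ, ∃ (k t : ℕ) (F : Fin k → Fin m → Polynomial ℝ),
      1 ≤ k ∧ 1 ≤ t ∧ (∀ i j, (F i j).support.card ≤ t) ∧ (∑ i, ∏ j, F i j) ≠ 0 ∧
        B * (k * t) ^ C < (∑ i, ∏ j, F i j).roots.toFinset.card := by
    intro B
    obtain ⟨H, hH⟩ : ∃ H, H = B * ((K + 1) ^ a) ^ C := ⟨_, rfl⟩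
    obtain ⟨w, hw⟩ : ∃ w, w = 2 * H + 4 := ⟨_, rfl⟩
    have hw0 : 0 < w := by omega
    obtain ⟨F, hF, hne, hr⟩ := h w hw0
    refine ⟨_, _, F, Nat.one_le_pow _ _ (by omega), Nat.one_le_pow _ _ hw0, hF, hne,
      lt_of_lt_of_le ?_ hr⟩
    obtain ⟨v, hv⟩ : ∃ v, v = w ^ (C * (a + b)) := ⟨_, rfl⟩
    have hv0 : 0 < v := by rw [hv]; positivity
    have h1 : (K * w + 1) ^ a ≤ (K + 1) ^ a * w ^ a := by
      rw [← mul_pow]
      exact Nat.pow_le_pow_left (by nlinarith) a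
    have h2 : B * ((K * w + 1) ^ a * w ^ b) ^ C ≤ H * v := by
      calc B * ((K * w + 1) ^ a * w ^ b) ^ C ≤ B * ((K + 1) ^ a * w ^ a * w ^ b) ^ C := by gcongr
        _ = H * v := by
          rw [hH, hv, mul_assoc ((K + 1) ^ a), ← pow_add, mul_pow, ← pow_mul w, mul_comm (a + b) C]
          ring
    have h3 : w * v ≤ w ^ T := by
      rw [hv, ← pow_succ']
      exact Nat.pow_le_pow_right hw0 hT
    have h4 : w * v = 2 * (H * v) + 4 * v := by rw [hw]; ring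
    omega
  refine ⟨m, ?_, key⟩
  rcases Nat.eq_zero_or_pos m with rfl | hm
  · obtain ⟨k, t, F, -, -, -, -, hlt⟩ := key 0
    have : (∑ i, ∏ j, F i j) = Polynomial.C (k : ℝ) := by simp
    rw [this, Polynomial.roots_C] at hlt
    simp at hlt
  · exact hm

end Pool.Agent.Results.MP_97f157_lc.Disproof
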