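import Pool.Agent.Work.MP_97f157_lc.SosC

/-- Polynomially superlinear lower bound for two factors: weighted sums of `k` squares of
`t`-sparse polynomials with `k * t` at most `48 * 2 ^ (279 v)` and `2 ^ (280 v) - 1` real roots. -/
theorem Pool.Agent.Results.MP_97f157_lc.FewSquares.result :
    ∀ v : ℕ, ∃ (k t : ℕ) (c : Fin k → ℝ) (g : Fin k → Polynomial ℝ),
      (∀ i, (g i).support.card ≤ t) ∧ (∑ i, Polynomial.C (c i) * g i ^ 2) ≠ 0 ∧
      k * t ≤ 48 * 2 ^ (279 * v) ∧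
      2 ^ (280 * v) ≤ (∑ i, Polynomial.C (c i) * g i ^ 2).roots.toFinset.card + 1 :=
  Pool.Agent.Work.MP_97f157_lc.Sos.main
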