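import Pool.Agent.Work.MP_97f157_lc.RsFinal

/-- The real tau-conjecture for almost all supports, with worst-case coefficients. -/
theorem Pool.Agent.Results.MP_97f157_lc.RandomSupports.result :
    ∃ C c : ℕ, ∀ k m t q N D : ℕ, 0 < k → 0 < m → 0 < t → 0 < q →
      2 ^ (C * (k * m * t * q * (N + 1)) ^ c) ≤ D →
      2 ^ N * {e : Fin q → Fin t → Fin D | ∃ (π : Fin k → Fin m → Fin q) (a : Fin k → ℝ)
          (g : Fin q → Polynomial ℝ), (∀ i, ∃ j, ∀ i' j', π i' j' = π i j → i' = i) ∧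
          (∀ p, ∀ n ∈ (g p).support, ∃ l, n = (e p l : ℕ)) ∧
          C * (k * m * t * q * (N + 1)) ^ c
            < (∑ i, Polynomial.C (a i) * ∏ j, g (π i j)).roots.toFinset.card}.ncard
        ≤ D ^ (q * t) :=
  Pool.Agent.Work.MP_97f157_lc.Rs.random_supports
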