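import Mathlib
import Pool.Agent.Work.MP_97f157_lc.TauFinal

set_option autoImplicit false

namespace Pool.Agent.Results.MP_97f157_lc.TwoProductsBinomials

/-- The real tau-conjecture for `k = 2`, `t = 2`: a nonzero sum of two products of `m` powers of
real polynomials with at most two monomials has at most `C (m+1)^c` distinct real roots. -/
theorem result :
    ∃ C c : ℕ, ∀ (m : ℕ) (F : Fin 2 → Fin m → Polynomial ℝ) (α : Fin 2 → Fin m → ℕ),
      (∀ i j, (F i j).support.card ≤ 2) → (∑ i, ∏ j, F i j ^ α i j) ≠ 0 →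
        (∑ i, ∏ j, F i j ^ α i j).roots.toFinset.card ≤ C * (m + 1) ^ c :=
  Pool.Agent.Work.MP_97f157_lc.Tau.main

end Pool.Agent.Results.MP_97f157_lc.TwoProductsBinomials
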